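import Pool.Agent.H5.FR2.Stmts

/-! # URB, module GEN: countably many rank conditions on the weights can be met together -/

set_option autoImplicit false

namespace Pool.Agent.H5.FR2

open Finset Pool.Agent.H5.FR Pool.Agent.H80

private theorem gen_rows {K : Type} [Field K] {a b : Type} [Fintype a] [Fintype b]
    (M : Matrix a b K) (s : ℕ) (h : s ≤ M.rank) :
    ∃ f : Fin s → a, LinearIndependent K (M.submatrix f id).row := by
  classical
  obtain ⟨κ, t, ht, hspan, hli⟩ := exists_linearIndependent' K M.row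
  have : Finite κ := Finite.of_injective t ht
  have := Fintype.ofFinite κ
  have hc : Fintype.card κ = M.rank := by
    rw [Matrix.rank_eq_finrank_span_row, ← hspan, finrank_span_eq_card hli]
  have hs : Fintype.card (Fin s) ≤ Fintype.card κ := by
    rw [Fintype.card_fin, hc]
    exact h
  obtain ⟨g⟩ := Function.Embedding.nonempty_of_card_le hs
  exact ⟨fun i => t (g i), hli.comp g g.injective⟩

private theorem gen_minor {K : Type} [Field K] {a b : Type} [Fintype a] [Fintype b]
    (M : Matrix a b K) (s : ℕ) (h : s ≤ M.rank) :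
    ∃ (f : Fin s → a) (g : Fin s → b), (M.submatrix f g).det ≠ 0 := by
  obtain ⟨f, hf⟩ := gen_rows M s h
  have h1 : (M.submatrix f id).transpose.rank = s := by
    rw [Matrix.rank_transpose, hf.rank_matrix, Fintype.card_fin]
  obtain ⟨g, hg⟩ := gen_rows (M.submatrix f id).transpose s h1.ge
  have h2 : ((M.submatrix f id).transpose.submatrix g id) = (M.submatrix f g).transpose := rfl
  rw [h2] at hg
  have h3 := Matrix.linearIndependent_rows_iff_isUnit.1 hg
  rw [Matrix.isUnit_iff_isUnit_det, Matrix.det_transpose] at h3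
  exact ⟨f, g, h3.ne_zero⟩

private theorem gen_rank {K : Type} [Field K] {a b : Type} [Fintype a] [Fintype b]
    (M : Matrix a b K) (s : ℕ) (f : Fin s → a) (g : Fin s → b)
    (h : (M.submatrix f g).det ≠ 0) : s ≤ M.rank := by
  have h1 : IsUnit (M.submatrix f g) := by
    rw [Matrix.isUnit_iff_isUnit_det]
    exact isUnit_iff_ne_zero.2 h
  have h2 := Matrix.rank_of_isUnit _ h1
  have h3 := Matrix.rank_submatrix_le M f g
  rw [h2, Fintype.card_fin] at h3
  exact h3

/-- countably many nonzero polynomials have a common non-zero -/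
private theorem gen_common (T : Type) [Fintype T] (κ : Type) [Countable κ]
    (P : κ → MvPolynomial T ℂ) (hP : ∀ k, P k ≠ 0) :
    ∃ x : T → ℂ, ∀ k, MvPolynomial.eval x (P k) ≠ 0 := by
  have hopen : ∀ k, IsOpen {x : T → ℂ | MvPolynomial.eval x (P k) ≠ 0} := fun k =>
    isOpen_ne_fun (MvPolynomial.continuous_eval (P k)) continuous_const
  have hdense : ∀ k, Dense {x : T → ℂ | MvPolynomial.eval x (P k) ≠ 0} := by
    intro k
    rw [Metric.dense_iff]
    intro x r hr
    by_contra hne
    rw [Set.not_nonempty_iff_eq_empty, Set.eq_empty_iff_forall_notMem] at hne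
    apply hP k
    refine MvPolynomial.funext_set (fun i => Metric.ball (x i) r)
      (fun i => infinite_of_mem_nhds (x i) (Metric.ball_mem_nhds (x i) hr)) fun y hy => ?_
    rw [map_zero]
    by_contra h0
    refine hne y ⟨?_, h0⟩
    rw [Metric.mem_ball, dist_pi_lt_iff hr]
    intro i
    exact hy i (Set.mem_univ i)
  obtain ⟨x, hx⟩ := (dense_iInter_of_isOpen hopen hdense).nonempty
  exact ⟨x, fun k => Set.mem_iInter.1 hx k⟩

private theorem gen_QQ_map {K L : Type} [CommRing K] [CommRing L] {d n W : ℕ}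
    (F : Finset (Finset (Fin d))) (w : Finset (Fin d) → Fin d → Fin W → Fin n → Fin W → K)
    (φ : K →+* L) (j : ℕ) : ∀ (X : Finset (Fin d)) (u : Fin W),
      MvPolynomial.map φ (QQ F w j X u) = QQ F (fun X i u a v => φ (w X i u a v)) j X u := by
  induction j with
  | zero =>
    intro X u
    simp only [QQ]
    split_ifs <;> simp
  | succ j ih =>
    intro X u
    simp only [QQ, map_sum, map_mul, MvPolynomial.map_C, MvPolynomial.map_X, ih]

theorem gen_thm : GENStmt := by
  classical
  intro d n W F κ _ X Y _ _ A R hR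
  let T : Type := Finset (Fin d) × Fin d × Fin (W + 1) × Fin n × Fin (W + 1)
  let gw : Finset (Fin d) → Fin d → Fin (W + 1) → Fin n → Fin (W + 1) → MvPolynomial T ℂ :=
    fun X i u a v => MvPolynomial.X (X, i, u, a, v)
  let wx : (T → ℂ) → Finset (Fin d) → Fin d → Fin (W + 1) → Fin n → Fin (W + 1) → ℂ :=
    fun x X i u a v => x (X, i, u, a, v)
  let MM : ∀ k, Matrix (∀ i, X k i) (∀ i, Y k i) (MvPolynomial T ℂ) := fun k p q =>
    ∑ a : Fin d → Fin n, (QQ F gw d univ 0).coeff (∑ i, Finsupp.single (i, a i) 1) *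
      MvPolynomial.C (∏ i, A k i (a i) (p i) (q i))
  have hMM : ∀ (k : κ) (x : T → ℂ), (MM k).map (MvPolynomial.eval x) =
      app (A k) (QQ F (wx x) d univ 0) := by
    intro k x
    ext p q
    show MvPolynomial.eval x (∑ a : Fin d → Fin n,
      (QQ F gw d univ 0).coeff (∑ i, Finsupp.single (i, a i) 1) *
      MvPolynomial.C (∏ i, A k i (a i) (p i) (q i))) = ∑ a : Fin d → Fin n,
      (QQ F (wx x) d univ 0).coeff (∑ i, Finsupp.single (i, a i) 1) *
        ∏ i, A k i (a i) (p i) (q i)
    rw [map_sum]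
    refine Finset.sum_congr rfl fun a _ => ?_
    rw [map_mul, MvPolynomial.eval_C]
    congr 1
    have h1 : QQ F (wx x) d univ 0 = MvPolynomial.map (MvPolynomial.eval x) (QQ F gw d univ 0) := by
      rw [gen_QQ_map]
      congr 1
      ext X i u a v
      simp [wx, gw]
    rw [h1, MvPolynomial.coeff_map]
  choose w hw using hR
  have hmin : ∀ k, ∃ (f : Fin (app (A k) (QQ F (w k) d univ 0)).rank → (∀ i, X k i))
      (g : Fin (app (A k) (QQ F (w k) d univ 0)).rank → (∀ i, Y k i)),
      ((app (A k) (QQ F (w k) d univ 0)).submatrix f g).det ≠ 0 := fun k =>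
    gen_minor _ _ le_rfl
  choose f g hfg using hmin
  have hdet : ∀ (k : κ) (x : T → ℂ), MvPolynomial.eval x ((MM k).submatrix (f k) (g k)).det =
      ((app (A k) (QQ F (wx x) d univ 0)).submatrix (f k) (g k)).det := by
    intro k x
    rw [RingHom.map_det, ← hMM]
    rfl
  obtain ⟨x, hx⟩ := gen_common T κ (fun k => ((MM k).submatrix (f k) (g k)).det) (fun k h0 => by
    apply hfg k
    have h1 := hdet k (fun t => w k t.1 t.2.1 t.2.2.1 t.2.2.2.1 t.2.2.2.2)
    rw [h0, map_zero] at h1
    exact h1.symm)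
  refine ⟨wx x, fun k => (hw k).trans (Nat.mul_le_mul_left 3 ?_)⟩
  refine gen_rank _ _ (f k) (g k) ?_
  rw [← hdet]
  exact hx k

end Pool.Agent.H5.FR2
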