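import Pool.Agent.H5.FR2.Stmts

/-! # URB, module SCL: approximate operator scaling of semistable tuples -/

set_option autoImplicit false

namespace Pool.Agent.H5.FR2

open Finset Pool.Agent.H5.FR Pool.Agent.H80
open scoped ComplexOrder

section

variable {n : ℕ} {X Y : Type} [Fintype X] [DecidableEq X] [Fintype Y] [DecidableEq Y]

omit [DecidableEq X] [DecidableEq Y] in
private theorem scl_KK_posSemidef (B : Fin n → Matrix X Y ℂ) : (KK B).PosSemidef := by
  unfold KK
  exact Matrix.posSemidef_sum _ fun a _ => Matrix.posSemidef_self_mul_conjTranspose (B a)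

omit [DecidableEq X] [DecidableEq Y] in
private theorem scl_LL_posSemidef (B : Fin n → Matrix X Y ℂ) : (LL B).PosSemidef := by
  unfold LL
  exact Matrix.posSemidef_sum _ fun a _ => Matrix.posSemidef_conjTranspose_mul_self (B a)

omit [DecidableEq X] [DecidableEq Y] in
private theorem scl_trace (B : Fin n → Matrix X Y ℂ) : (KK B).trace = (LL B).trace := by
  unfold KK LL
  rw [Matrix.trace_sum, Matrix.trace_sum]
  exact Finset.sum_congr rfl fun a _ => Matrix.trace_mul_comm _ _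

private theorem scl_tr1_nonneg {Z : Type} [Fintype Z] {R : Matrix Z Z ℂ} (h : R.PosSemidef) :
    0 ≤ tr1 R := (Complex.nonneg_iff.1 h.trace_nonneg).1

private theorem scl_trace_eq {Z : Type} [Fintype Z] {R : Matrix Z Z ℂ} (h : R.PosSemidef)
    (h1 : tr1 R = 1) : R.trace = 1 := by
  have h2 := (Complex.nonneg_iff.1 h.trace_nonneg).2
  apply Complex.ext
  · exact h1
  · rw [← h2, Complex.one_im]

omit [DecidableEq X] [DecidableEq Y] in
private theorem scl_KK_left (B : Fin n → Matrix X Y ℂ) (G P : Matrix X X ℂ) (Q : Matrix Y Y ℂ) :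
    KK (fun a => (G * P) * B a * Q) = G * KK (fun a => P * B a * Q) * G.conjTranspose := by
  unfold KK
  rw [Matrix.mul_sum, Matrix.sum_mul]
  refine Finset.sum_congr rfl fun a _ => ?_
  simp only [Matrix.conjTranspose_mul, Matrix.mul_assoc]

omit [DecidableEq X] [DecidableEq Y] in
private theorem scl_LL_right (B : Fin n → Matrix X Y ℂ) (G Q : Matrix Y Y ℂ) (P : Matrix X X ℂ) :
    LL (fun a => P * B a * (Q * G.conjTranspose)) =
      G * LL (fun a => P * B a * Q) * G.conjTranspose := by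
  unfold LL
  rw [Matrix.mul_sum, Matrix.sum_mul]
  refine Finset.sum_congr rfl fun a _ => ?_
  simp only [Matrix.conjTranspose_mul, Matrix.conjTranspose_conjTranspose, Matrix.mul_assoc]

end

/-- the numerical part -/
private theorem scl_num {m D ε η N' g : ℝ} {a b : ℕ} (ha : 1 ≤ a) (hb : 1 ≤ b) (hm : 0 < m)
    (hD : 0 < D) (hε : 0 < ε) (h1 : 1 ≤ (1 + ε / 4) * (m * D)) (hN0 : 0 ≤ N')
    (hN : N' = 1 - η / (2 * a)) (hg : Real.exp (-η / (4 * a)) ≤ g)
    (hle : m * (g ^ b * D) ≤ N' ^ (a * b)) : η ≤ ε := by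
  by_contra hcon
  push Not at hcon
  have hη : 0 < η := hε.trans hcon
  have ha' : (1 : ℝ) ≤ a := by exact_mod_cast ha
  have hb' : (1 : ℝ) ≤ b := by exact_mod_cast hb
  have h2 : N' ≤ Real.exp (-(η / (2 * a))) := by
    have := Real.add_one_le_exp (-(η / (2 * a)))
    linarith
  have h3 : N' ^ (a * b) ≤ Real.exp (-(η * b / 2)) := by
    calc N' ^ (a * b) ≤ Real.exp (-(η / (2 * a))) ^ (a * b) := pow_le_pow_left₀ hN0 h2 _
      _ = Real.exp (-(η * b / 2)) := by
          rw [← Real.exp_nat_mul]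
          congr 1
          push_cast
          field_simp
  have h4 : Real.exp (-(η * b / 4)) ≤ g ^ b := by
    have h5 : Real.exp (-(η / 4)) ≤ g := by
      refine le_trans (Real.exp_le_exp.2 ?_) hg
      rw [neg_div, neg_le_neg_iff]
      apply div_le_div_of_nonneg_left hη.le (by norm_num)
      nlinarith
    calc Real.exp (-(η * b / 4)) = Real.exp (-(η / 4)) ^ b := by
          rw [← Real.exp_nat_mul]
          congr 1
          ring
      _ ≤ g ^ b := pow_le_pow_left₀ (Real.exp_pos _).le h5 _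
  have h6 : Real.exp (-(η * b / 4)) * (m * D) ≤ Real.exp (-(η * b / 2)) := by
    have h7 : Real.exp (-(η * b / 4)) * (m * D) ≤ g ^ b * (m * D) :=
      mul_le_mul_of_nonneg_right h4 (by positivity)
    have h8 : g ^ b * (m * D) = m * (g ^ b * D) := by ring
    linarith
  have h9 : m * D ≤ Real.exp (-(η * b / 4)) := by
    have h10 : Real.exp (-(η * b / 2)) = Real.exp (-(η * b / 4)) * Real.exp (-(η * b / 4)) := by
      rw [← Real.exp_add]
      congr 1
      ring
    rw [h10] at h6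
    exact le_of_mul_le_mul_left h6 (Real.exp_pos _)
  have h11 : 1 + ε / 4 < Real.exp (η * b / 4) := by
    have h12 := Real.add_one_le_exp (ε / 4)
    have h13 : Real.exp (ε / 4) < Real.exp (η * b / 4) := by
      apply Real.exp_lt_exp.2
      have : ε < η * b := by nlinarith
      linarith
    linarith
  have h14 : (1 + ε / 4) * (m * D) < 1 := by
    have h15 : Real.exp (η * b / 4) * Real.exp (-(η * b / 4)) = 1 := by
      rw [← Real.exp_add, add_neg_cancel, Real.exp_zero]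
    calc (1 + ε / 4) * (m * D) < Real.exp (η * b / 4) * (m * D) :=
          mul_lt_mul_of_pos_right h11 (by positivity)
      _ ≤ Real.exp (η * b / 4) * Real.exp (-(η * b / 4)) :=
          mul_le_mul_of_nonneg_left h9 (Real.exp_pos _).le
      _ = 1 := h15
  linarith

theorem scl_thm (hCAP : CAPStmt) (hPRT : PRTStmt) : SCLStmt := by
  intro n X Y _ _ _ _ _ _ B hB ε hε
  obtain ⟨c, hc, hcap⟩ := hCAP n X Y B hB
  set x : ℕ := Fintype.card X with hx
  set y : ℕ := Fintype.card Y with hy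
  have hx1 : 1 ≤ x := Fintype.card_pos
  have hy1 : 1 ≤ y := Fintype.card_pos
  let N : Matrix X X ℂ → Matrix Y Y ℂ → ℝ := fun P Q => tr1 (KK (fun a => P * B a * Q))
  let D : Matrix X X ℂ → Matrix Y Y ℂ → ℝ := fun P Q => (‖P.det‖ ^ 2) ^ y * (‖Q.det‖ ^ 2) ^ x
  have hD : ∀ P Q, IsUnit P → IsUnit Q → 0 < D P Q := by
    intro P Q hP hQ
    have h1 : P.det ≠ 0 := ((Matrix.isUnit_iff_isUnit_det P).1 hP).ne_zero
    have h2 : Q.det ≠ 0 := ((Matrix.isUnit_iff_isUnit_det Q).1 hQ).ne_zero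
    have h3 : 0 < ‖P.det‖ := norm_pos_iff.2 h1
    have h4 : 0 < ‖Q.det‖ := norm_pos_iff.2 h2
    simp only [D]
    positivity
  let S : Set ℝ := {z | ∃ P Q, IsUnit P ∧ IsUnit Q ∧ z = N P Q ^ (x * y) / D P Q}
  have hSne : S.Nonempty := ⟨_, 1, 1, isUnit_one, isUnit_one, rfl⟩
  have hSc : ∀ z ∈ S, c ≤ z := by
    rintro z ⟨P, Q, hP, hQ, rfl⟩
    rw [le_div_iff₀ (hD P Q hP hQ)]
    have := hcap P Q
    calc c * D P Q = c * (‖P.det‖ ^ 2) ^ y * (‖Q.det‖ ^ 2) ^ x := by simp only [D]; ring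
      _ ≤ _ := this
  have hSb : BddBelow S := ⟨c, hSc⟩
  set m : ℝ := sInf S with hm
  have hm0 : 0 < m := lt_of_lt_of_le hc (le_csInf hSne hSc)
  have hmin : ∀ P Q, IsUnit P → IsUnit Q → m * D P Q ≤ N P Q ^ (x * y) := by
    intro P Q hP hQ
    rw [← le_div_iff₀ (hD P Q hP hQ)]
    exact csInf_le hSb ⟨P, Q, hP, hQ, rfl⟩
  have hlt : m < (1 + ε / 4) * m := by nlinarith
  obtain ⟨z, ⟨P₀, Q, hP₀, hQ, rfl⟩, hz⟩ := exists_lt_of_csInf_lt hSne (hm ▸ hlt)
  have hN0 : ∀ P Q, 0 ≤ N P Q := fun P Q => scl_tr1_nonneg (scl_KK_posSemidef _)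
  have hNpos : 0 < N P₀ Q := by
    refine lt_of_le_of_ne (hN0 P₀ Q) fun h0 => ?_
    have h1 := hmin P₀ Q hP₀ hQ
    rw [← h0, zero_pow (by positivity)] at h1
    have := mul_pos hm0 (hD P₀ Q hP₀ hQ)
    linarith
  -- scaling
  set t : ℝ := (√(N P₀ Q))⁻¹ with ht
  have ht0 : 0 < t := inv_pos.2 (Real.sqrt_pos.2 hNpos)
  have ht2 : t ^ 2 * N P₀ Q = 1 := by
    rw [ht, inv_pow, Real.sq_sqrt hNpos.le, inv_mul_cancel₀ hNpos.ne']
  set P : Matrix X X ℂ := (t : ℂ) • P₀ with hP
  have htu : IsUnit (t : ℂ) := isUnit_iff_ne_zero.2 (by exact_mod_cast ht0.ne')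
  have hPu : IsUnit P := by
    rw [Matrix.isUnit_iff_isUnit_det, hP, Matrix.det_smul]
    exact (htu.pow _).mul ((Matrix.isUnit_iff_isUnit_det P₀).1 hP₀)
  have hNP : N P Q = 1 := by
    have h1 : KK (fun a => P * B a * Q) = ((t : ℂ) ^ 2) • KK (fun a => P₀ * B a * Q) := by
      unfold KK
      rw [Finset.smul_sum]
      refine Finset.sum_congr rfl fun a _ => ?_
      show ((t : ℂ) • P₀) * B a * Q * (((t : ℂ) • P₀) * B a * Q).conjTranspose =
        ((t : ℂ) ^ 2) • (P₀ * B a * Q * (P₀ * B a * Q).conjTranspose)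
      rw [Matrix.smul_mul, Matrix.smul_mul, Matrix.conjTranspose_smul, Matrix.smul_mul,
        Matrix.mul_smul, smul_smul]
      congr 1
      have : star (t : ℂ) = (t : ℂ) := Complex.conj_ofReal t
      rw [this, pow_two]
    show tr1 (KK (fun a => P * B a * Q)) = 1
    rw [h1]
    have h2 : tr1 (((t : ℂ) ^ 2) • KK (fun a => P₀ * B a * Q)) = t ^ 2 * N P₀ Q := by
      unfold tr1
      rw [Matrix.trace_smul, smul_eq_mul, ← Complex.ofReal_pow, Complex.re_ofReal_mul]
      rfl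
    rw [h2, ht2]
  have hDP : (N P₀ Q) ^ (x * y) * D P Q = D P₀ Q := by
    have h1 : ‖P.det‖ ^ 2 = (t ^ 2) ^ x * ‖P₀.det‖ ^ 2 := by
      rw [hP, Matrix.det_smul, norm_mul, norm_pow, Complex.norm_real, Real.norm_eq_abs,
        abs_of_pos ht0]
      ring
    simp only [D]
    rw [h1, mul_pow, ← pow_mul]
    have h2 : N P₀ Q ^ (x * y) * ((t ^ 2) ^ (x * y) * (‖P₀.det‖ ^ 2) ^ y * (‖Q.det‖ ^ 2) ^ x) =
        (t ^ 2 * N P₀ Q) ^ (x * y) * ((‖P₀.det‖ ^ 2) ^ y * (‖Q.det‖ ^ 2) ^ x) := by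
      rw [mul_pow (t ^ 2)]
      ring
    rw [h2, ht2, one_pow, one_mul]
  have hDP0 := hD P Q hPu hQ
  have h1 : 1 ≤ (1 + ε / 4) * (m * D P Q) := by
    have h2 : N P₀ Q ^ (x * y) / D P₀ Q = (D P Q)⁻¹ := by
      rw [← hDP]
      have : (N P₀ Q) ^ (x * y) ≠ 0 := (pow_pos hNpos _).ne'
      field_simp
    rw [h2] at hz
    have h3 := mul_lt_mul_of_pos_right hz hDP0
    rw [inv_mul_cancel₀ hDP0.ne'] at h3
    linarith [mul_assoc (1 + ε / 4) m (D P Q)]
  refine ⟨P, Q, hPu, hQ, hNP, ?_, ?_⟩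
  · have hR := scl_KK_posSemidef (fun a => P * B a * Q)
    obtain ⟨G, hG, hG1, hG2⟩ := hPRT X (KK (fun a => P * B a * Q)) hR (scl_trace_eq hR hNP)
    rw [← scl_KK_left] at hG1
    have h4 : (x : ℝ) * tr2 (KK (fun a => P * B a * Q)) - 1 ≤ ε := by
      refine scl_num (N' := N (G * P) Q) (g := ‖G.det‖ ^ 2) hx1 hy1 hm0 hDP0 hε h1 (hN0 _ _)
        hG1 hG2 ?_
      have h5 := hmin (G * P) Q (hG.mul hPu) hQ
      have h6 : D (G * P) Q = (‖G.det‖ ^ 2) ^ y * D P Q := by
        simp only [D]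
        rw [Matrix.det_mul, norm_mul, mul_pow, mul_pow]
        ring
      rw [h6] at h5
      exact h5
    linarith
  · have hR := scl_LL_posSemidef (fun a => P * B a * Q)
    have htr : tr1 (LL (fun a => P * B a * Q)) = 1 := by
      have : tr1 (KK (fun a => P * B a * Q)) = 1 := hNP
      unfold tr1 at this ⊢
      rw [← scl_trace]
      exact this
    obtain ⟨G, hG, hG1, hG2⟩ := hPRT Y (LL (fun a => P * B a * Q)) hR (scl_trace_eq hR htr)
    rw [← scl_LL_right] at hG1
    have hN' : N P (Q * G.conjTranspose) =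
        tr1 (LL (fun a => P * B a * (Q * G.conjTranspose))) := by
      show tr1 (KK (fun a => P * B a * (Q * G.conjTranspose))) = _
      unfold tr1
      rw [scl_trace]
    rw [← hN'] at hG1
    have h4 : (y : ℝ) * tr2 (LL (fun a => P * B a * Q)) - 1 ≤ ε := by
      refine scl_num (N' := N P (Q * G.conjTranspose)) (g := ‖G.det‖ ^ 2) hy1 hx1 hm0 hDP0 hε h1
        (hN0 _ _) hG1 hG2 ?_
      have hGs : IsUnit G.conjTranspose := by
        rw [← Matrix.star_eq_conjTranspose]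
        exact hG.star
      have h5 := hmin P (Q * G.conjTranspose) hPu (hQ.mul hGs)
      have h6 : D P (Q * G.conjTranspose) = (‖G.det‖ ^ 2) ^ x * D P Q := by
        simp only [D]
        rw [Matrix.det_mul, Matrix.det_conjTranspose, norm_mul, norm_star, mul_pow, mul_pow]
        ring
      rw [h6, mul_comm x y] at h5
      exact h5
    linarith

end Pool.Agent.H5.FR2
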